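import Pool.Agent.N65.GP.Defs

/-!
# Project GP (helper65), part LC (helper401): coefficients of relations between harmonic functions
-/

set_option autoImplicit false
set_option linter.all false

namespace Pool.Agent.N401.GPL

open Complex Filter Topology Metric

/-- the four directions -/
noncomputable def w : Fin 4 → ℂ := ![1, -1, I, -I]

theorem tend_line (c v : ℂ) : Tendsto (fun t : ℝ => c + v * (t : ℂ)) (𝓝[≠] 0) (𝓝 c) := by
  have h1 : Continuous fun t : ℝ => c + v * (t : ℂ) := by fun_prop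
  have h2 := h1.tendsto 0
  simp only [ofReal_zero, mul_zero, add_zero] at h2
  exact h2.mono_left nhdsWithin_le_nhds

/-- the mean value over four points -/
theorem four {F : ℂ → ℂ} {c : ℂ} {s : Set ℂ} (hs : s ∈ 𝓝 c) (hF : DifferentiableOn ℂ F s) :
    Tendsto (fun t : ℝ => (∑ k, (F (c + w k * t) - F c)) / (t : ℂ) ^ 2) (𝓝[≠] 0) (𝓝 0) := by
  have h1 : DifferentiableOn ℂ (dslope F c) s := (Complex.differentiableOn_dslope hs).2 hF
  have h2 : DifferentiableAt ℂ (dslope F c) c := h1.differentiableAt hs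
  obtain ⟨K, hK⟩ : ∃ K, K = dslope (dslope F c) c := ⟨_, rfl⟩
  have h3 : ContinuousAt K c := by
    rw [hK]
    exact continuousAt_dslope_same.2 h2
  have h4 : ∀ z, F z = F c + (z - c) * (deriv F c) + (z - c) ^ 2 * K z := by
    intro z
    have e1 : (z - c) • dslope F c z = F z - F c := sub_smul_dslope F c z
    have e2 : (z - c) • dslope (dslope F c) c z = dslope F c z - dslope F c c :=
      sub_smul_dslope (dslope F c) c z
    rw [← hK, dslope_same] at e2
    rw [smul_eq_mul] at e1 e2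
    linear_combination -e1 - (z - c) * e2
  have h5 : ∀ k, Tendsto (fun t : ℝ => w k ^ 2 * K (c + w k * t)) (𝓝[≠] 0)
      (𝓝 (w k ^ 2 * K c)) := fun k =>
    (h3.tendsto.comp (tend_line c (w k))).const_mul _
  have h6 := tendsto_finset_sum Finset.univ fun k (_ : k ∈ Finset.univ) => h5 k
  have h7 : ∑ k, w k ^ 2 * K c = 0 := by
    rw [Fin.sum_univ_four]
    simp [w]
  rw [h7] at h6
  refine h6.congr' ?_
  filter_upwards [self_mem_nhdsWithin] with t ht
  have ht0 : (t : ℂ) ≠ 0 := by exact_mod_cast ht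
  have h8 : ∀ k, F (c + w k * t) - F c =
      w k * (t * deriv F c) + t ^ 2 * (w k ^ 2 * K (c + w k * t)) := by
    intro k
    rw [h4 (c + w k * t)]
    ring
  rw [Finset.sum_congr rfl fun k _ => h8 k, Finset.sum_add_distrib, ← Finset.sum_mul,
    ← Finset.mul_sum]
  have h9 : ∑ k, w k = 0 := by
    rw [Fin.sum_univ_four]
    simp [w]
  rw [h9, zero_mul, zero_add, mul_div_cancel_left₀ _ (pow_ne_zero 2 ht0)]

/-- real parts of holomorphic functions near a point, with the derivative -/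
def Harm (f : ℂ → ℝ) (c g : ℂ) : Prop :=
  ∃ (F : ℂ → ℂ) (s : Set ℂ), s ∈ 𝓝 c ∧ DifferentiableOn ℂ F s ∧ deriv F c = g ∧
    ∀ z ∈ s, f z = (F z).re

theorem Harm.four {f : ℂ → ℝ} {c g : ℂ} (h : Harm f c g) :
    Tendsto (fun t : ℝ => (∑ k, (f (c + w k * t) - f c)) / t ^ 2) (𝓝[≠] 0) (𝓝 0) := by
  obtain ⟨F, s, hs, hF, -, hf⟩ := h
  have h1 := (Complex.continuous_re.tendsto 0).comp (GPL.four hs hF)
  rw [Complex.zero_re] at h1
  refine h1.congr' ?_
  have h2 : ∀ᶠ t : ℝ in 𝓝[≠] 0, ∀ k, c + w k * (t : ℂ) ∈ s :=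
    eventually_all.2 fun k => (tend_line c (w k)) hs
  filter_upwards [h2] with t ht
  have h3 : (t : ℂ) ^ 2 = ((t ^ 2 : ℝ) : ℂ) := by push_cast; rfl
  change ((∑ k, (F (c + w k * t) - F c)) / (t : ℂ) ^ 2).re = _
  rw [h3, Complex.div_ofReal_re, Complex.re_sum]
  congr 1
  refine Finset.sum_congr rfl fun k _ => ?_
  rw [Complex.sub_re, hf _ (ht k), hf _ (mem_of_mem_nhds hs)]

theorem Harm.first {f : ℂ → ℝ} {c g : ℂ} (h : Harm f c g) (k : Fin 4) :
    Tendsto (fun t : ℝ => (f (c + w k * t) - f c) / t) (𝓝[≠] 0) (𝓝 (w k * g).re) := by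
  obtain ⟨F, s, hs, hF, hg, hf⟩ := h
  have h1 : HasDerivAt F g c := by
    rw [← hg]
    exact (hF.differentiableAt hs).hasDerivAt
  have h2 : HasDerivAt (fun t : ℂ => c + w k * t) (w k) 0 := by
    simpa using ((hasDerivAt_id (0 : ℂ)).const_mul (w k)).const_add c
  have h3 : HasDerivAt (fun t : ℂ => F (c + w k * t)) (g * w k) 0 := by
    have h4 : HasDerivAt F g (c + w k * 0) := by simpa using h1
    exact h4.comp 0 h2
  have h4 := (hasDerivAt_iff_tendsto_slope_zero.1 h3)
  have h5 : Tendsto (fun t : ℝ => (t : ℂ)) (𝓝[≠] 0) (𝓝[≠] 0) := by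
    refine tendsto_nhdsWithin_iff.2 ⟨?_, ?_⟩
    · exact (Complex.continuous_ofReal.tendsto' 0 0 (by simp)).mono_left nhdsWithin_le_nhds
    · filter_upwards [self_mem_nhdsWithin] with t ht
      simpa using ht
  have h6 := (Complex.continuous_re.tendsto _).comp (h4.comp h5)
  rw [mul_comm g] at h6
  refine h6.congr' ?_
  have h7 : ∀ᶠ t : ℝ in 𝓝[≠] 0, c + w k * (t : ℂ) ∈ s := (tend_line c (w k)) hs
  filter_upwards [h7] with t ht
  change ((t : ℂ)⁻¹ • (F (c + w k * (0 + (t : ℂ))) - F (c + w k * 0))).re = _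
  rw [zero_add, mul_zero, add_zero, smul_eq_mul, ← Complex.ofReal_inv, Complex.re_ofReal_mul,
    Complex.sub_re, hf _ ht, hf _ (mem_of_mem_nhds hs), div_eq_inv_mul]

theorem first_mu {μ : ℂ → ℝ} {c : ℂ} {μ' : ℂ →L[ℝ] ℝ} (h : HasFDerivAt μ μ' c) (k : Fin 4) :
    Tendsto (fun t : ℝ => (μ (c + w k * t) - μ c) / t) (𝓝[≠] 0) (𝓝 (μ' (w k))) := by
  have h2 : HasDerivAt (fun t : ℝ => c + w k * (t : ℂ)) (w k) 0 := by
    simpa using ((Complex.ofRealCLM.hasDerivAt (x := 0)).const_mul (w k)).const_add c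
  have h3 : HasDerivAt (fun t : ℝ => μ (c + w k * (t : ℂ))) (μ' (w k)) 0 := by
    have h4 : HasFDerivAt μ μ' (c + w k * ((0 : ℝ) : ℂ)) := by simpa using h
    exact h4.comp_hasDerivAt 0 h2
  have h4 := (hasDerivAt_iff_tendsto_slope_zero.1 h3)
  refine h4.congr' ?_
  filter_upwards with t
  change t⁻¹ • (μ (c + w k * ((0 + t : ℝ) : ℂ)) - μ (c + w k * ((0 : ℝ) : ℂ))) = _
  rw [zero_add, Complex.ofReal_zero, mul_zero, add_zero, smul_eq_mul, div_eq_inv_mul]

/-- the logarithms are harmonic -/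
theorem harm_log {Y : ℂ → ℂ} {c u : ℂ} {s : Set ℂ} (hs : s ∈ 𝓝 c) (hY : DifferentiableOn ℂ Y s)
    (hu : Y c ≠ u) : Harm (fun z => Real.log ‖Y z - u‖) c (deriv Y c / (Y c - u)) := by
  have h0 : Y c - u ≠ 0 := sub_ne_zero.2 hu
  have hc : ContinuousAt Y c := (hY.differentiableAt hs).continuousAt
  have h1 : ContinuousAt (fun z => (Y z - u) / (Y c - u)) c :=
    (hc.sub continuousAt_const).div_const _
  have h2 : ∀ᶠ z in 𝓝 c, (Y z - u) / (Y c - u) ∈ Complex.slitPlane := by
    refine h1.eventually (Complex.isOpen_slitPlane.mem_nhds ?_)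
    change (Y c - u) / (Y c - u) ∈ _
    rw [div_self h0]
    exact Complex.one_mem_slitPlane
  obtain ⟨s', hs', h3⟩ : ∃ s' ∈ 𝓝 c, s' ⊆ s ∧ ∀ z ∈ s', (Y z - u) / (Y c - u) ∈
      Complex.slitPlane := ⟨s ∩ {z | (Y z - u) / (Y c - u) ∈ Complex.slitPlane},
        inter_mem hs h2, Set.inter_subset_left, fun z hz => hz.2⟩
  refine ⟨fun z => Complex.log ((Y z - u) / (Y c - u)) + Real.log ‖Y c - u‖, s', hs', ?_, ?_, ?_⟩
  · intro z hz
    have h4 : DifferentiableWithinAt ℂ Y s' z := (hY z (h3.1 hz)).mono h3.1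
    exact (((h4.sub_const u).div_const _).clog (h3.2 z hz)).add_const _
  · have h4 : HasDerivAt Y (deriv Y c) c := (hY.differentiableAt hs).hasDerivAt
    have h5 := (((h4.sub_const u).div_const (Y c - u)).clog
      (h3.2 c (mem_of_mem_nhds hs'))).add_const (Real.log ‖Y c - u‖ : ℂ)
    rw [h5.deriv, div_self h0, div_one]
  · intro z hz
    have h4 : (Y z - u) / (Y c - u) ≠ 0 := Complex.slitPlane_ne_zero (h3.2 z hz)
    have h5 : Y z - u ≠ 0 := fun h => h4 (by rw [h, zero_div])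
    rw [Complex.add_re, Complex.log_re, Complex.ofReal_re, norm_div,
      Real.log_div (norm_ne_zero_iff.2 h5) (norm_ne_zero_iff.2 h0)]
    ring

/-- the derivative of the coefficients vanishes -/
theorem deriv_zero {n : ℕ} {c : ℂ} {h : Fin n × Fin 3 → ℂ → ℝ} {l : Fin n × Fin 3 → Fin n → ℂ → ℝ}
    {μ : Fin n → ℂ → ℝ} {μ' : Fin n → ℂ →L[ℝ] ℝ} {gh : Fin n × Fin 3 → ℂ}
    {g : Fin n × Fin 3 → Fin n → ℂ} (hμ : ∀ i, HasFDerivAt (μ i) (μ' i) c)
    (hh : ∀ j, Harm (h j) c (gh j)) (hl : ∀ j i, Harm (l j i) c (g j i))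
    (hid : ∀ᶠ z in 𝓝 c, ∀ j, h j z = ∑ i, μ i z * l j i z)
    (hM : (Matrix.of fun j p : Fin n × Fin 3 => (![l j p.1 c, (g j p.1).re,
      (g j p.1).im] : Fin 3 → ℝ) p.2).det ≠ 0) (i : Fin n) : μ' i = 0 := by
  classical
  obtain ⟨M, hMd⟩ : ∃ M : Matrix (Fin n × Fin 3) (Fin n × Fin 3) ℝ, M = Matrix.of fun j p =>
    (![l j p.1 c, (g j p.1).re, (g j p.1).im] : Fin 3 → ℝ) p.2 := ⟨_, rfl⟩
  rw [← hMd] at hM
  obtain ⟨a, ha⟩ : ∃ a : Fin n → ℝ → ℝ, a = fun (i : Fin n) (t : ℝ) =>
    (∑ k, (μ i (c + w k * t) - μ i c)) / t ^ 2 := ⟨_, rfl⟩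
  obtain ⟨v, hv⟩ : ∃ v : ℝ → Fin n × Fin 3 → ℝ, v = fun (t : ℝ) (p : Fin n × Fin 3) =>
    (![a p.1 t, 2 * μ' p.1 1, -(2 * μ' p.1 I)] : Fin 3 → ℝ) p.2 := ⟨_, rfl⟩
  -- the key limit
  have h1 : ∀ j, Tendsto (fun t : ℝ => (M.mulVec (v t)) j) (𝓝[≠] 0) (𝓝 0) := by
    intro j
    have h2 : ∀ i, Tendsto (fun t : ℝ => (∑ k, ((μ i (c + w k * t) - μ i c) / t) *
        ((l j i (c + w k * t) - l j i c) / t)) +
        μ i c * ((∑ k, (l j i (c + w k * t) - l j i c)) / t ^ 2)) (𝓝[≠] 0)
        (𝓝 ((∑ k, μ' i (w k) * (w k * g j i).re) + μ i c * 0)) := by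
      intro i
      exact (tendsto_finset_sum Finset.univ fun k _ =>
        (first_mu (hμ i) k).mul ((hl j i).first k)).add ((hl j i).four.const_mul _)
    have h3 := (hh j).four.sub (tendsto_finset_sum Finset.univ fun i (_ : i ∈ Finset.univ) => h2 i)
    have h4 : Tendsto (fun t : ℝ => ∑ i, a i t * l j i c) (𝓝[≠] 0)
        (𝓝 (0 - ∑ i, ((∑ k, μ' i (w k) * (w k * g j i).re) + μ i c * 0))) := by
      refine h3.congr' ?_
      have h5 : ∀ᶠ t : ℝ in 𝓝[≠] 0, ∀ k, ∀ j, h j (c + w k * (t : ℂ)) =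
          ∑ i, μ i (c + w k * (t : ℂ)) * l j i (c + w k * (t : ℂ)) :=
        eventually_all.2 fun k => (tend_line c (w k)).eventually hid
      filter_upwards [h5, self_mem_nhdsWithin] with t ht ht0
      have ht0' : t ≠ 0 := ht0
      have h6 : h j c = ∑ i, μ i c * l j i c := hid.self_of_nhds j
      have h7 : (∑ k, (h j (c + w k * t) - h j c)) / t ^ 2 =
          ∑ i, ((∑ k, (μ i (c + w k * t) * l j i (c + w k * t) - μ i c * l j i c)) / t ^ 2) := by
        rw [← Finset.sum_div, Finset.sum_comm]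
        congr 1
        refine Finset.sum_congr rfl fun k _ => ?_
        rw [ht k j, h6, ← Finset.sum_sub_distrib]
      rw [h7, ← Finset.sum_sub_distrib]
      refine Finset.sum_congr rfl fun i _ => ?_
      rw [ha]
      simp only [Finset.sum_div, Finset.mul_sum, Finset.sum_mul]
      rw [← Finset.sum_add_distrib, ← Finset.sum_sub_distrib]
      refine Finset.sum_congr rfl fun k _ => ?_
      field_simp
      ring
    have h5 : ∀ t, (M.mulVec (v t)) j = (∑ i, a i t * l j i c) +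
        ∑ i, ((g j i).re * (2 * μ' i 1) + (g j i).im * (-(2 * μ' i I))) := by
      intro t
      rw [Matrix.mulVec, dotProduct, Fintype.sum_prod_type, ← Finset.sum_add_distrib]
      refine Finset.sum_congr rfl fun i _ => ?_
      rw [hMd, hv, Fin.sum_univ_three]
      simp only [Matrix.of_apply, Matrix.cons_val_zero, Matrix.cons_val_one, Matrix.cons_val]
      ring
    have h6 : (0 - ∑ i, ((∑ k, μ' i (w k) * (w k * g j i).re) + μ i c * 0)) +
        ∑ i, ((g j i).re * (2 * μ' i 1) + (g j i).im * (-(2 * μ' i I))) = 0 := by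
      rw [zero_sub, ← Finset.sum_neg_distrib, ← Finset.sum_add_distrib]
      refine Finset.sum_eq_zero fun i _ => ?_
      rw [Fin.sum_univ_four]
      simp only [w, Matrix.cons_val_zero, Matrix.cons_val_one, Matrix.cons_val, map_neg]
      simp
      ring
    have h7 := h4.add_const (∑ i, ((g j i).re * (2 * μ' i 1) + (g j i).im * (-(2 * μ' i I))))
    rw [h6] at h7
    refine h7.congr' ?_
    filter_upwards with t
    exact (h5 t).symm
  -- invert the matrix
  have h2 : ∀ p, Tendsto (fun t : ℝ => v t p) (𝓝[≠] 0) (𝓝 0) := by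
    intro p
    have h3 : ∀ t, v t p = ∑ j, M⁻¹ p j * (M.mulVec (v t)) j := by
      intro t
      have h4 : (M⁻¹).mulVec (M.mulVec (v t)) = v t := by
        rw [Matrix.mulVec_mulVec, Matrix.nonsing_inv_mul _ (isUnit_iff_ne_zero.2 hM),
          Matrix.one_mulVec]
      conv_lhs => rw [← h4]
      rfl
    have h4 := tendsto_finset_sum Finset.univ fun j (_ : j ∈ Finset.univ) =>
      (h1 j).const_mul (M⁻¹ p j)
    simp only [mul_zero, Finset.sum_const_zero] at h4
    refine h4.congr' ?_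
    filter_upwards with t
    exact (h3 t).symm
  have h3 : μ' i 1 = 0 := by
    have h4 := h2 (i, 1)
    have h5 : (fun t : ℝ => v t (i, 1)) = fun _ => 2 * μ' i 1 := by
      funext t
      rw [hv]
      simp
    rw [h5] at h4
    have h6 := tendsto_nhds_unique h4 tendsto_const_nhds
    linarith
  have h4 : μ' i I = 0 := by
    have h4 := h2 (i, 2)
    have h5 : (fun t : ℝ => v t (i, 2)) = fun _ => -(2 * μ' i I) := by
      funext t
      rw [hv]
      simp
    rw [h5] at h4
    have h6 := tendsto_nhds_unique h4 tendsto_const_nhds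
    linarith
  refine ContinuousLinearMap.ext fun z => ?_
  have h5 : z = z.re • (1 : ℂ) + z.im • I := by
    rw [Complex.real_smul, Complex.real_smul, mul_one]
    exact (Complex.re_add_im z).symm
  rw [h5, map_add, map_smul, map_smul, h3, h4]
  simp

theorem diff_det {m : Type} [Fintype m] [DecidableEq m] {A : ℂ → Matrix m m ℝ} {c : ℂ}
    (hA : ∀ i j, DifferentiableAt ℝ (fun z => A z i j) c) :
    DifferentiableAt ℝ (fun z => (A z).det) c := by
  simp only [Matrix.det_apply']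
  refine DifferentiableAt.fun_sum fun σ _ => ?_
  refine DifferentiableAt.const_mul ?_ _
  exact (HasFDerivAt.finsetProd fun i _ => (hA (σ i) i).hasFDerivAt).differentiableAt

theorem cont_det {m : Type} [Fintype m] [DecidableEq m] {A : ℂ → Matrix m m ℝ} {c : ℂ}
    (hA : ∀ i j, ContinuousAt (fun z => A z i j) c) :
    ContinuousAt (fun z => (A z).det) c := by
  simp only [Matrix.det_apply']
  refine tendsto_finset_sum _ fun σ _ => ?_
  refine Tendsto.const_mul _ ?_
  exact tendsto_finset_prod _ fun i _ => hA _ _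

theorem t_LC : Pool.Agent.N65.GP.S_LC := by
  classical
  intro n c₀ ε D Y P u lam hε hD hY hP hYu hrel hdet
  obtain ⟨l, hl⟩ : ∃ l : Fin n × Fin 3 → Fin n → ℂ → ℝ, l = fun j i z =>
    Real.log ‖Y i z - u j‖ := ⟨_, rfl⟩
  obtain ⟨g, hg⟩ : ∃ g : Fin n × Fin 3 → Fin n → ℂ → ℂ, g = fun j i z =>
    deriv (Y i) z / (Y i z - u j) := ⟨_, rfl⟩
  have hball : ∀ c ∈ ball c₀ ε, ball c₀ ε ∈ 𝓝 c := fun c hc => isOpen_ball.mem_nhds hc
  have hYc : ∀ i, ∀ c ∈ ball c₀ ε, ContinuousAt (Y i) c := fun i c hc =>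
    ((hY i).differentiableAt (hball c hc)).continuousAt
  have hc₀ : c₀ ∈ ball c₀ ε := mem_ball_self hε
  obtain ⟨M, hM⟩ : ∃ M : ℂ → Matrix (Fin n × Fin 3) (Fin n × Fin 3) ℝ, M = fun z =>
    Matrix.of fun j p => (![l j p.1 z, (g j p.1 z).re, (g j p.1 z).im] : Fin 3 → ℝ) p.2 :=
    ⟨_, rfl⟩
  have hM0 : (M c₀).det ≠ 0 := by
    rw [hM, hl, hg]
    exact hdet
  obtain ⟨T, hT⟩ : ∃ T : Fin n → Fin n × Fin 3 → ℝ, T = fun i j => (M c₀)⁻¹ (i, 0) j := ⟨_, rfl⟩
  obtain ⟨N, hN⟩ : ∃ N : ℂ → Matrix (Fin n) (Fin n) ℝ, N = fun z => Matrix.of fun i i' =>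
    ∑ j, T i j * l j i' z := ⟨_, rfl⟩
  have hN0 : N c₀ = 1 := by
    ext i i'
    have h1 : ((M c₀)⁻¹ * M c₀) (i, 0) (i', 0) =
        (1 : Matrix (Fin n × Fin 3) (Fin n × Fin 3) ℝ) (i, 0) (i', 0) := by
      rw [Matrix.nonsing_inv_mul _ (isUnit_iff_ne_zero.2 hM0)]
    rw [Matrix.mul_apply] at h1
    have h2 : (1 : Matrix (Fin n × Fin 3) (Fin n × Fin 3) ℝ) (i, 0) (i', 0) =
        (1 : Matrix (Fin n) (Fin n) ℝ) i i' := by
      rw [Matrix.one_apply, Matrix.one_apply]
      simp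
    rw [h2] at h1
    rw [← h1, hN]
    change ∑ j, T i j * l j i' c₀ = _
    refine Finset.sum_congr rfl fun j _ => ?_
    have h3 : M c₀ j (i', 0) = l j i' c₀ := by
      rw [hM]
      rfl
    rw [hT, h3]
  -- regularity at the points where the values are different from `u`
  have hharm : ∀ c ∈ ball c₀ ε, (∀ i j, Y i c ≠ u j) → ∀ j i, Harm (l j i) c (g j i c) := by
    intro c hc hcu j i
    rw [hl, hg]
    exact harm_log (hball c hc) (hY i) (hcu i j)
  have hldiff : ∀ c ∈ ball c₀ ε, (∀ i j, Y i c ≠ u j) → ∀ j i, DifferentiableAt ℝ (l j i) c := by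
    intro c hc hcu j i
    obtain ⟨F, s, hs, hF, -, hf⟩ := hharm c hc hcu j i
    have h1 : DifferentiableAt ℝ F c := (hF.differentiableAt hs).restrictScalars ℝ
    have h2 : DifferentiableAt ℝ (fun z => (F z).re) c :=
      (Complex.reCLM.differentiableAt).comp c h1
    refine h2.congr_of_eventuallyEq ?_
    filter_upwards [hs] with z hz
    exact hf z hz
  have hPharm : ∀ c ∈ ball c₀ ε, ∀ j, Harm (fun z => (P j z).re) c (deriv (P j) c) :=
    fun c hc j => ⟨P j, ball c₀ ε, hball c hc, hP j, rfl, fun _ _ => rfl⟩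
  have hPdiff : ∀ c ∈ ball c₀ ε, ∀ j, DifferentiableAt ℝ (fun z => (P j z).re) c := by
    intro c hc j
    exact (Complex.reCLM.differentiableAt).comp c
      (((hP j).differentiableAt (hball c hc)).restrictScalars ℝ)
  -- the small ball
  have hev : ∀ᶠ c in 𝓝 c₀, c ∈ ball c₀ ε ∧ (∀ i j, Y i c ≠ u j) ∧ (N c).det ≠ 0 ∧
      (M c).det ≠ 0 := by
    refine Filter.Eventually.and (hball c₀ hc₀) (Filter.Eventually.and ?_
      (Filter.Eventually.and ?_ ?_))
    · exact eventually_all.2 fun i => eventually_all.2 fun j =>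
        (hYc i c₀ hc₀).eventually_ne (hYu i j)
    · have h1 : ContinuousAt (fun z => (N z).det) c₀ := by
        refine cont_det fun i i' => ?_
        rw [hN]
        simp only [Matrix.of_apply]
        refine tendsto_finset_sum _ fun j _ => Tendsto.const_mul _ ?_
        exact (hldiff c₀ hc₀ hYu j i').continuousAt
      refine h1.eventually_ne ?_
      rw [hN0, Matrix.det_one]
      exact one_ne_zero
    · have h1 : ContinuousAt (fun z => (M z).det) c₀ := by
        refine cont_det fun j p => ?_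
        have h2 : ContinuousAt (g j p.1) c₀ := by
          rw [hg]
          have h3 : ContinuousAt (deriv (Y p.1)) c₀ :=
            (((hY p.1).deriv isOpen_ball).differentiableAt (hball c₀ hc₀)).continuousAt
          exact h3.div ((hYc p.1 c₀ hc₀).sub continuousAt_const)
            (sub_ne_zero.2 (hYu p.1 j))
        rw [hM]
        simp only [Matrix.of_apply]
        obtain ⟨i, q⟩ := p
        fin_cases q
        · exact (hldiff c₀ hc₀ hYu j i).continuousAt
        · exact Complex.continuous_re.continuousAt.comp h2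
        · exact Complex.continuous_im.continuousAt.comp h2
      exact h1.eventually_ne hM0
  obtain ⟨ε', hε', hU⟩ := Metric.eventually_nhds_iff_ball.1 hev
  -- the coefficients
  obtain ⟨μ, hμ⟩ : ∃ μ : Fin n → ℂ → ℝ, μ = fun i z =>
    ((N z).updateCol i (fun i' => ∑ j, T i' j * (P j z).re)).det / (N z).det := ⟨_, rfl⟩
  have hμd : ∀ c ∈ ball c₀ ε', ∀ i, DifferentiableAt ℝ (μ i) c := by
    intro c hc i
    obtain ⟨h1, h2, h3, h4⟩ := hU c hc
    rw [hμ]
    have h5 : ∀ a b, DifferentiableAt ℝ (fun z => N z a b) c := by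
      intro a b
      rw [hN]
      simp only [Matrix.of_apply]
      exact DifferentiableAt.fun_sum fun j _ => (hldiff c h1 h2 j b).const_mul _
    have h6 : DifferentiableAt ℝ (fun z => (N z).det) c := diff_det h5
    have h7 : DifferentiableAt ℝ (fun z => ((N z).updateCol i
        (fun i' => ∑ j, T i' j * (P j z).re)).det) c := by
      refine diff_det fun a b => ?_
      by_cases hb : b = i
      · subst hb
        simp only [Matrix.updateCol_self]
        exact DifferentiableAt.fun_sum fun j _ => (hPdiff c h1 j).const_mul _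
      · simp only [Matrix.updateCol_ne hb]
        exact h5 a b
    simp only [div_eq_mul_inv]
    exact h7.mul (h6.inv h3)
  have hlam : ∀ c ∈ ball c₀ ε', c ∈ D → ∀ i, lam c i = μ i c := by
    intro c hc hcD i
    obtain ⟨h1, h2, h3, h4⟩ := hU c hc
    have h5 : (fun i' => ∑ j, T i' j * (P j c).re) = (N c).mulVec (lam c) := by
      funext i'
      rw [Matrix.mulVec, dotProduct, hN]
      simp only [Matrix.of_apply, Finset.sum_mul]
      rw [Finset.sum_comm]
      refine Finset.sum_congr rfl fun j _ => ?_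
      rw [hrel c hcD h1 j, Finset.mul_sum]
      refine Finset.sum_congr rfl fun i'' _ => ?_
      rw [hl]
      ring
    have h6 : ((N c).updateCol i (fun i' => ∑ j, T i' j * (P j c).re)).det =
        (N c).det * lam c i := by
      rw [h5, ← Matrix.cramer_apply, Matrix.cramer_eq_adjugate_mulVec, Matrix.mulVec_mulVec,
        Matrix.adjugate_mul, Matrix.smul_mulVec, Matrix.one_mulVec]
      rfl
    rw [hμ]
    simp only
    rw [h6, mul_div_cancel_left₀ _ h3]
  have hid : ∀ c ∈ ball c₀ ε', ∀ j, (P j c).re = ∑ i, μ i c * l j i c := by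
    intro c hc j
    obtain ⟨h1, h2, h3, h4⟩ := hU c hc
    have h5 : (𝓝[D] c).NeBot := mem_closure_iff_nhdsWithin_neBot.1 (hD c)
    have h6 : ContinuousAt (fun z => (P j z).re) c := (hPdiff c h1 j).continuousAt
    have h7 : ContinuousAt (fun z => ∑ i, μ i z * l j i z) c :=
      tendsto_finset_sum _ fun i _ => ((hμd c hc i).continuousAt.tendsto).mul
        ((hldiff c h1 h2 j i).continuousAt.tendsto)
    refine tendsto_nhds_unique_of_eventuallyEq (h6.tendsto.mono_left nhdsWithin_le_nhds)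
      (h7.tendsto.mono_left (nhdsWithin_le_nhds (s := D))) ?_
    filter_upwards [self_mem_nhdsWithin, nhdsWithin_le_nhds (isOpen_ball.mem_nhds hc)] with z hz hz'
    rw [hrel z hz (hU z hz').1 j]
    refine Finset.sum_congr rfl fun i _ => ?_
    rw [hlam z hz' hz i, hl]
  have hzero : ∀ c ∈ ball c₀ ε', ∀ i, fderiv ℝ (μ i) c = 0 := by
    intro c hc i
    obtain ⟨h1, h2, h3, h4⟩ := hU c hc
    refine deriv_zero (μ := μ) (μ' := fun i => fderiv ℝ (μ i) c) (h := fun j z => (P j z).re)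
      (l := l) (gh := fun j => deriv (P j) c) (g := fun j i => g j i c)
      (fun i => (hμd c hc i).hasFDerivAt) (hPharm c h1) (hharm c h1 h2) ?_ ?_ i
    · filter_upwards [isOpen_ball.mem_nhds hc] with z hz j
      exact hid z hz j
    · have h5 := h4
      rw [hM] at h5
      exact h5
  refine ⟨ε', hε', ?_⟩
  intro c hcD c' hcD' hc hc'
  funext i
  rw [hlam c hc hcD i, hlam c' hc' hcD' i]
  refine (convex_ball c₀ ε').is_const_of_fderivWithin_eq_zero (𝕜 := ℝ) (f := μ i) ?_ ?_ hc hc'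
  · intro z hz
    exact (hμd z hz i).differentiableWithinAt
  · intro z hz
    rw [fderivWithin_of_isOpen isOpen_ball hz]
    exact hzero z hz i

end Pool.Agent.N401.GPL
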